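import Pool.Agent.Helper12.NK.St
import Pool.Agent.Helper41.AJ.M_CON

/-!
# Project NK (MP_d63854_co), module CTR: a contractible edge in a 3-connected graph (Thomassen)
-/

set_option autoImplicit false

namespace Pool.Agent.Helper69.NK

open Pool.Agent.Helper12.NK
open Pool.Agent.Helper51.AJ (Con Tch con_singleton con_union con_nonempty)

private theorem con1 {V : Type} [Finite V] {B : SimpleGraph V} {S : Set V} (h : Con B S) {T : Set V} (hTS : T ⊆ S)
    (hT : T.Nonempty) (hne : T ≠ S) : Tch B T (S \ T) :=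
  (Pool.Agent.Helper41.AJ.hCON V B S h).1 T hTS hT hne

/-- components exist -/
private theorem exK {V : Type} [Finite V] (G : SimpleGraph V) (W : Set V) {a : V} (ha : a ∈ W) :
    ∃ K ⊆ W, a ∈ K ∧ Con G K ∧ ∀ b ∈ K, ∀ c ∈ W, G.Adj b c → c ∈ K := by
  obtain ⟨K, ⟨hKW, haK, hK⟩, hmax⟩ := Set.exists_max_image
    {K : Set V | K ⊆ W ∧ a ∈ K ∧ Con G K} Set.ncard (Set.toFinite _)
    ⟨{a}, Set.singleton_subset_iff.2 ha, rfl, con_singleton G a⟩
  refine ⟨K, hKW, haK, hK, ?_⟩
  intro b hb c hc hbc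
  by_contra hcK
  have h1 := hmax (K ∪ {c}) ⟨Set.union_subset hKW (Set.singleton_subset_iff.2 hc), Or.inl haK,
    con_union hK (con_singleton G c) ⟨b, hb, c, rfl, hbc⟩⟩
  rw [Set.union_singleton, Set.ncard_insert_of_notMem hcK (Set.toFinite _)] at h1
  omega

/-- a connected subset of `W` which meets a closed subset `L` of `W` is contained in it -/
private theorem subK {V : Type} [Finite V] {G : SimpleGraph V} {W K L : Set V} (hK : Con G K) (hKW : K ⊆ W)
    (hL : ∀ b ∈ L, ∀ c ∈ W, G.Adj b c → c ∈ L) {a : V} (haK : a ∈ K) (haL : a ∈ L) : K ⊆ L := by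
  by_contra hsub
  have hne : K ∩ L ≠ K := fun h => hsub (Set.inter_eq_left.1 h)
  obtain ⟨b, hb, c, hc, hbc⟩ := con1 hK Set.inter_subset_left ⟨a, haK, haL⟩ hne
  exact hc.2 ⟨hc.1, hL b hb.2 c (hKW hc.1) hbc⟩

/-- contracting an edge keeps a connected set connected -/
private theorem con_cnt {V : Type} {G : SimpleGraph V} {S : Set V} {x y : V} (h : Con G S) (hx : x ∈ S)
    (hxy : x ≠ y) : Con (cnt G x y) (S \ {y}) := by
  classical
  let f : S → (S \ {y} : Set V) := fun a => if ha : a.1 = y then ⟨x, hx, hxy⟩ else ⟨a.1, a.2, ha⟩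
  have hf : ∀ a b : S, (G.induce S).Adj a b → ((cnt G x y).induce (S \ {y})).Reachable (f a) (f b) := by
    intro a b hab
    have hab' : G.Adj a.1 b.1 := hab
    by_cases ha : a.1 = y
    · have hb : b.1 ≠ y := fun hb => G.ne_of_adj hab' (ha.trans hb.symm)
      have hfa : f a = ⟨x, hx, hxy⟩ := dif_pos ha
      have hfb : f b = ⟨b.1, b.2, hb⟩ := dif_neg hb
      rw [hfa, hfb]
      by_cases hbx : b.1 = x
      · have : (⟨x, hx, hxy⟩ : (S \ {y} : Set V)) = ⟨b.1, b.2, hb⟩ := Subtype.ext hbx.symm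
        rw [this]
      · refine SimpleGraph.Adj.reachable ?_
        show (cnt G x y).Adj x b.1
        exact ⟨fun h0 => hbx h0.symm, hxy, hb, Or.inr (Or.inl ⟨rfl, ha ▸ hab'⟩)⟩
    · have hfa : f a = ⟨a.1, a.2, ha⟩ := dif_neg ha
      by_cases hb : b.1 = y
      · have hfb : f b = ⟨x, hx, hxy⟩ := dif_pos hb
        rw [hfa, hfb]
        by_cases hax : a.1 = x
        · have : (⟨a.1, a.2, ha⟩ : (S \ {y} : Set V)) = ⟨x, hx, hxy⟩ := Subtype.ext hax
          rw [this]
        · refine SimpleGraph.Adj.reachable ?_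
          show (cnt G x y).Adj a.1 x
          exact ⟨hax, ha, hxy, Or.inr (Or.inr ⟨rfl, hb ▸ hab'.symm⟩)⟩
      · have hfb : f b = ⟨b.1, b.2, hb⟩ := dif_neg hb
        rw [hfa, hfb]
        refine SimpleGraph.Adj.reachable ?_
        show (cnt G x y).Adj a.1 b.1
        exact ⟨G.ne_of_adj hab', ha, hb, Or.inl hab'⟩
  have hf2 : ∀ a b : S, (G.induce S).Reachable a b →
      ((cnt G x y).induce (S \ {y})).Reachable (f a) (f b) := by
    intro a b hab
    rw [SimpleGraph.reachable_iff_reflTransGen] at hab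
    induction hab with
    | refl => exact SimpleGraph.Reachable.refl _
    | tail _ h2 ih => exact ih.trans (hf _ _ h2)
  have : Nonempty (S \ {y} : Set V) := ⟨⟨x, hx, hxy⟩⟩
  refine ⟨?_⟩
  rintro ⟨a, ha, hay⟩ ⟨b, hb, hby⟩
  have h1 := hf2 ⟨a, ha⟩ ⟨b, hb⟩ (h.preconnected _ _)
  have hfa : f ⟨a, ha⟩ = ⟨a, ha, hay⟩ := dif_neg hay
  have hfb : f ⟨b, hb⟩ = ⟨b, hb, hby⟩ := dif_neg hby
  rwa [hfa, hfb] at h1

private theorem con_congr {V : Type} {G H : SimpleGraph V} {S : Set V} (h : ∀ a ∈ S, ∀ b ∈ S, G.Adj a b → H.Adj a b)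
    (hG : Con G S) : Con H S := by
  refine SimpleGraph.Connected.mono ?_ hG
  intro a b hab
  exact h a.1 a.2 b.1 b.2 hab

/-- an edge which is not contractible lies in a vertex cut with three elements -/
private theorem stepA {V : Type} [Finite V] {G : SimpleGraph V} {U : Set V} (hG : Kc 3 G U) (hU : 5 ≤ U.ncard)
    {x y : V} (hx : x ∈ U) (hy : y ∈ U) (hxy : G.Adj x y) (hno : ¬ Kc 3 (cnt G x y) (U \ {y})) :
    ∃ z ∈ U, z ≠ x ∧ z ≠ y ∧ ¬ Con G (U \ {x, y, z}) := by
  have hne : x ≠ y := G.ne_of_adj hxy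
  have hcard : 3 < (U \ {y}).ncard := by
    rw [Set.ncard_diff_singleton_of_mem hy]
    omega
  unfold Kc at hno
  push Not at hno
  obtain ⟨X, hX3, hX⟩ := hno hcard
  by_cases hxX : x ∈ X
  · have h1 : ¬ Con G (U \ insert y X) := by
      intro h
      apply hX
      have hset : (U \ {y}) \ X = U \ insert y X := by
        ext a
        simp only [Set.mem_diff, Set.mem_singleton_iff, Set.mem_insert_iff]
        tauto
      rw [hset]
      refine con_congr ?_ h
      intro a ha b hb hab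
      have ha1 : a ≠ y := fun h0 => ha.2 (Or.inl h0)
      have hb1 : b ≠ y := fun h0 => hb.2 (Or.inl h0)
      exact ⟨G.ne_of_adj hab, ha1, hb1, Or.inl hab⟩
    have h2 : 3 ≤ (insert y X).ncard := by
      by_contra hlt
      exact h1 (hG.2 _ (by omega))
    have hyX : y ∉ X := by
      intro hyX
      rw [Set.insert_eq_of_mem hyX] at h2
      omega
    rw [Set.ncard_insert_of_notMem hyX (Set.toFinite _)] at h2
    have hX2 : X.ncard = 2 := by omega
    obtain ⟨p, q, hpq, rfl⟩ := Set.ncard_eq_two.1 hX2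
    have key : ∀ z : V, z ≠ x → z ≠ y → ¬ Con G (U \ {x, y, z}) →
        ∃ z ∈ U, z ≠ x ∧ z ≠ y ∧ ¬ Con G (U \ {x, y, z}) := by
      intro z hzx hzy hz
      refine ⟨z, ?_, hzx, hzy, hz⟩
      by_contra hzU
      apply hz
      have hset : U \ {x, y, z} = U \ {x, y} := by
        ext a
        simp only [Set.mem_diff, Set.mem_insert_iff, Set.mem_singleton_iff]
        constructor
        · rintro ⟨h3, h4⟩
          exact ⟨h3, fun h5 => h4 (by tauto)⟩
        · rintro ⟨h3, h4⟩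
          refine ⟨h3, ?_⟩
          rintro (h5 | h5 | h5)
          · exact h4 (Or.inl h5)
          · exact h4 (Or.inr h5)
          · exact hzU (h5 ▸ h3)
      rw [hset]
      apply hG.2
      rw [Set.ncard_pair hne]
      norm_num
    rcases hxX with hxp | hxq
    · refine key q ?_ ?_ ?_
      · rw [hxp]; exact hpq.symm
      · intro h0; exact hyX (Or.inr h0.symm)
      · have : ({x, y, q} : Set V) = insert y {p, q} := by
          rw [hxp]
          exact Set.insert_comm _ _ _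
        rw [this]
        exact h1
    · have hxq' : x = q := hxq
      refine key p ?_ ?_ ?_
      · rw [hxq']; exact hpq
      · intro h0; exact hyX (Or.inl h0.symm)
      · have : ({x, y, p} : Set V) = insert y {p, q} := by
          ext a
          simp only [Set.mem_insert_iff, Set.mem_singleton_iff, hxq']
          tauto
        rw [this]
        exact h1
  · exfalso
    apply hX
    have h1 : Con G (U \ (X \ {y})) := by
      apply hG.2
      exact lt_of_le_of_lt (Set.ncard_le_ncard Set.diff_subset (Set.toFinite _)) hX3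
    have h2 := con_cnt (x := x) (y := y) h1 ⟨hx, fun h0 => hxX h0.1⟩ hne
    have hset : (U \ {y}) \ X = (U \ (X \ {y})) \ {y} := by
      ext a
      simp only [Set.mem_diff, Set.mem_singleton_iff]
      tauto
    rw [hset]
    exact h2

theorem hCTR : StKCA → StKCB → StCTR := by
  classical
  intro _ hKCB V _ G U hG hU
  by_contra hcon
  push Not at hcon
  have hA : ∀ x ∈ U, ∀ y ∈ U, G.Adj x y → ∃ z ∈ U, z ≠ x ∧ z ≠ y ∧ ¬ Con G (U \ {x, y, z}) :=
    fun x hx y hy hxy => stepA hG hU hx hy hxy (hcon x hx y hy hxy)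
  let P : ℕ → Prop := fun n => ∃ x ∈ U, ∃ y ∈ U, ∃ z ∈ U, ∃ K ⊆ U \ {x, y, z}, G.Adj x y ∧ z ≠ x ∧ z ≠ y ∧
    Con G K ∧ (∀ b ∈ K, ∀ c ∈ U \ {x, y, z}, G.Adj b c → c ∈ K) ∧ ¬ Con G (U \ {x, y, z}) ∧ K.ncard = n
  have hex : ∃ n, P n := by
    have hUc : Con G U := by
      have := hG.2 ∅ (by simp)
      rwa [Set.diff_empty] at this
    obtain ⟨a, ha⟩ := con_nonempty hUc
    have hne : ({a} : Set V) ≠ U := by
      intro h
      rw [← h, Set.ncard_singleton] at hU
      omega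
    obtain ⟨x, hx, y, hy, hxy⟩ := con1 hUc (Set.singleton_subset_iff.2 ha) (Set.singleton_nonempty a) hne
    have hxU : x ∈ U := by rw [Set.mem_singleton_iff.1 hx]; exact ha
    obtain ⟨z, hz, hzx, hzy, hzc⟩ := hA x hxU y hy.1 hxy
    have hne2 : (U \ {x, y, z}).Nonempty := by
      by_contra h
      rw [Set.not_nonempty_iff_eq_empty, Set.diff_eq_empty] at h
      have h1 := Set.ncard_le_ncard h (Set.toFinite _)
      have h2 : ({x, y, z} : Set V).ncard ≤ 3 := by
        refine (Set.ncard_insert_le _ _).trans ?_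
        have := Set.ncard_insert_le y ({z} : Set V)
        rw [Set.ncard_singleton] at this
        omega
      omega
    obtain ⟨b, hb⟩ := hne2
    obtain ⟨K, hKW, _, hK, hKc⟩ := exK G _ hb
    exact ⟨K.ncard, x, hxU, y, hy.1, z, hz, K, hKW, hxy, hzx, hzy, hK, hKc, hzc, rfl⟩
  obtain ⟨x, hx, y, hy, z, hz, K, hKW, hxy, hzx, hzy, hK, hKc, hzc, hKn⟩ := Nat.find_spec hex
  have hxyne : x ≠ y := G.ne_of_adj hxy
  have hB := (hKCB V G U).1 3
  have h3 : ({x, y, z} : Set V).ncard = 3 := by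
    rw [Set.ncard_eq_three]
    exact ⟨x, y, z, hxyne, hzx.symm, hzy.symm, rfl⟩
  have hsub : ({x, y, z} : Set V) ⊆ U := by
    rintro a (h | h | h)
    · rw [h]; exact hx
    · rw [h]; exact hy
    · rw [Set.mem_singleton_iff.1 h]; exact hz
  obtain ⟨z', hz', v, hv, hzv⟩ := (hB _ hG hsub h3).2 K hKW hK hKc z (Or.inr (Or.inr rfl))
  rw [Set.mem_singleton_iff.1 hz'] at hzv
  have hvU : v ∈ U := (hKW hv).1
  have hvx : v ≠ x := fun h => (hKW hv).2 (Or.inl h)
  have hvy : v ≠ y := fun h => (hKW hv).2 (Or.inr (Or.inl h))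
  have hzv' : z ≠ v := G.ne_of_adj hzv
  obtain ⟨w, hw, hwz, hwv, hwc⟩ := hA z hz v hvU hzv
  -- the component `E` of the remaining ones of `x`, `y`
  obtain ⟨E, hEW, hE, hEc, hExy⟩ : ∃ E ⊆ U \ {z, v, w}, Con G E ∧
      (∀ b ∈ E, ∀ c ∈ U \ {z, v, w}, G.Adj b c → c ∈ E) ∧ ∀ a, (a = x ∨ a = y) → a ≠ w → a ∈ E := by
    have hmx : x ≠ w → x ∈ U \ {z, v, w} := by
      intro h
      refine ⟨hx, ?_⟩
      rintro (h0 | h0 | h0)
      · exact hzx h0.symm
      · exact hvx h0.symm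
      · exact h h0
    have hmy : y ≠ w → y ∈ U \ {z, v, w} := by
      intro h
      refine ⟨hy, ?_⟩
      rintro (h0 | h0 | h0)
      · exact hzy h0.symm
      · exact hvy h0.symm
      · exact h h0
    by_cases hxw : x = w
    · have hyw : y ≠ w := fun h => hxyne (hxw.trans h.symm)
      obtain ⟨E, hEW, hyE, hE, hEc⟩ := exK G _ (hmy hyw)
      refine ⟨E, hEW, hE, hEc, ?_⟩
      rintro a (rfl | rfl) haw
      · exact absurd hxw haw
      · exact hyE
    · obtain ⟨E, hEW, hxE, hE, hEc⟩ := exK G _ (hmx hxw)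
      refine ⟨E, hEW, hE, hEc, ?_⟩
      rintro a (rfl | rfl) haw
      · exact hxE
      · exact hEc x hxE _ (hmy haw) hxy
  have hEne : ∃ d, d ∈ U \ {z, v, w} ∧ d ∉ E := by
    by_contra h
    push Not at h
    apply hwc
    rw [Set.Subset.antisymm h hEW]
    exact hE
  obtain ⟨d₀, hd₀, hd₀E⟩ := hEne
  obtain ⟨D, hDW, hd₀D, hD, hDc⟩ := exK G _ hd₀
  have hDE : ∀ a ∈ D, a ∉ E := fun a haD haE => hd₀E (subK hD hDW hEc haD haE hd₀D)
  have hxD : x ∉ D := by
    intro h
    have hxw : x ≠ w := fun h0 => (hDW h).2 (Or.inr (Or.inr h0))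
    exact hDE x h (hExy x (Or.inl rfl) hxw)
  have hyD : y ∉ D := by
    intro h
    have hyw : y ≠ w := fun h0 => (hDW h).2 (Or.inr (Or.inr h0))
    exact hDE y h (hExy y (Or.inr rfl) hyw)
  have h3' : ({z, v, w} : Set V).ncard = 3 := by
    rw [Set.ncard_eq_three]
    exact ⟨z, v, w, hzv', hwz.symm, hwv.symm, rfl⟩
  have hsub' : ({z, v, w} : Set V) ⊆ U := by
    rintro a (h | h | h)
    · rw [h]; exact hz
    · rw [h]; exact hvU
    · rw [Set.mem_singleton_iff.1 h]; exact hw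
  obtain ⟨v', hv', d, hd, hvd⟩ := (hB _ hG hsub' h3').2 D hDW hD hDc v (Or.inr (Or.inl rfl))
  rw [Set.mem_singleton_iff.1 hv'] at hvd
  have hDW2 : D ⊆ U \ {x, y, z} := by
    intro a ha
    refine ⟨(hDW ha).1, ?_⟩
    rintro (h | h | h)
    · exact hxD (h ▸ ha)
    · exact hyD (h ▸ ha)
    · exact (hDW ha).2 (Or.inl h)
  have hdK : d ∈ K := hKc v hv d (hDW2 hd) hvd
  have hDK : D ⊆ K := subK hD hDW2 hKc hd hdK
  have hvD : v ∉ D := fun h => (hDW h).2 (Or.inr (Or.inl rfl))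
  have hlt : D.ncard < K.ncard := by
    apply Set.ncard_lt_ncard _ (Set.toFinite _)
    exact ⟨hDK, fun h => hvD (h hv)⟩
  have hmin := Nat.find_min hex (m := D.ncard) (by rw [← hKn]; exact hlt)
  exact hmin ⟨z, hz, v, hvU, w, hw, D, hDW, hzv, hwz, hwv, hD, hDc, hwc, rfl⟩

end Pool.Agent.Helper69.NK
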